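import Pool.Agent.H17Sv.Kk

/-!
# `Int_K(A)` is a Prüfer domain if it is integrally closed

Question Q1 of MP_6e749b_al: let `D` be an ADDB-domain with fraction field `K` and `A ≠ 0` a
torsion-free, module-finite, not necessarily commutative `D`-algebra. Then `Int_K(A)` is integrally
closed if and only if it is a Prüfer domain, if and only if `A = A'`, that is, `A` contains every
element of `K ⊗[D] A` which is integral over `D`. `IntK`, `inc` are defined in
`Pool/Agent/V113/IntK/Defs.lean`, `IsADDB` in `Pool/Agent/H17Sv/G.lean`, `BoundedAt` in
`Pool/Agent/H17Sv/Dd.lean` and `IsPruefer` in `Pool/Agent/H17Sv/J.lean`.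

Idea of the proof. By the theorem of `MP_457b0e_al` an integrally closed `Int_K(A)` contains every
`f ∈ K[X]` with `f(A) ⊆ A'`. Let `b ∈ A'` be outside `A`, say outside `A_M`. After multiplication
with an element outside `M` one has `p ^ m b ∈ A` for a prime element `p` of `D₀` in `M`. The sieve
polynomial `f = X p ^ (-m) ∏_{j < E m} (1 - (X ^ E / p ^ j) ^ N_j)`, with `E` and the `N_j` suitable
large multiples, has integral values at all elements of degree at most `n` integral over `D`: at a
valuation above `p` the value of `x ^ E` is a multiple of the one of `p`, and units have bounded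
order modulo the maximal ideal. Hence `f(A) ⊆ A'`, and `f(p ^ m b)` is `b` up to an element of `A`.

If `A = A'`, then for `t f ^ E = p ^ j h` in `Int_K(A)` the polynomial `t h (t ^ N - h ^ N)` is
divisible by `p` in `Int_K(A)`, with `E` and `N` depending on `p` only. It follows that for a prime
ideal `Q` containing `p` every `f ^ E` is in the localization at `Q` a power of `p` times a unit or
divisible by a given power of `p`, and so this localization is a valuation ring.
-/

set_option autoImplicit false

open Polynomial TensorProduct Pool.Agent.V113.IntK Pool.Agent.H17Sv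

namespace Pool.Agent.Results.MP_6e749b_al.ClosedIffFull

universe u v w

/-- Let `D` be an ADDB-domain with fraction field `K` and `A` a nonzero `D`-algebra, torsion-free
and finitely generated as a `D`-module. Then `Int_K(A)` is integrally closed if and only if it is a
Prüfer domain, and if and only if every element of `K ⊗[D] A` that is integral over `D` is in `A`,
that is, if and only if `A = A'`. -/
theorem result (D : Type u) (K : Type v) (A : Type w) [CommRing D] [IsDomain D] [Field K]
    [Algebra D K] [IsFractionRing D K] [Ring A] [Nontrivial A] [Algebra D A] [Module.Finite D A]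
    [Module.IsTorsionFree D A] (hD : IsADDB D) :
    (IsIntegrallyClosed (IntK D K A) ↔ IsPruefer (IntK D K A)) ∧
    (IsIntegrallyClosed (IntK D K A) ↔
      ∀ b : K ⊗[D] A, IsIntegral D b → b ∈ (inc D K A).range) := by
  have hic := integrallyClosed hD
  have hiff : IsIntegrallyClosed (IntK D K A) ↔
      ∀ b : K ⊗[D] A, IsIntegral D b → b ∈ (inc D K A).range :=
    ⟨fun h b hb => mem_range_of_closed hD h b hb, fun h => closed_of_mem D K A h⟩
  refine ⟨⟨fun h => pruefer_of_full D K A hD (hiff.1 h), fun h => ?_⟩, hiff⟩
  exact IsIntegrallyClosed.of_localization_maximal fun M _ _ => by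
    have := h M
    infer_instance

end Pool.Agent.Results.MP_6e749b_al.ClosedIffFull
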